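import Pool.Agent.H70.LZ.Stm

/-!
# LZ, part COV: the cover embeds (MP_895f30)
-/

set_option autoImplicit false

open Finset
open scoped commutatorElement

namespace H41.LZ

open H70.LZ

/-- the quotient of two consecutive terms as a `ZMod q`-module -/
theorem quot (q : ℕ) (Γ : Type) [Group Γ] (hq : ∀ g : Γ, g ^ q = 1) (n : ℕ) :
    ∃ (M : Type) (_ : AddCommGroup M) (_ : Module (ZMod q) M) (μ : gm Γ n →* Multiplicative M),
      ∀ g : gm Γ n, μ g = 1 ↔ (g : Γ) ∈ gm Γ (n + 1) := by
  set P' : Subgroup (gm Γ n) := (gm Γ (n + 1)).subgroupOf (gm Γ n) with hP'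
  have hcm : ∀ a ∈ gm Γ n, ∀ b : Γ, ⁅a, b⁆ ∈ gm Γ (n + 1) := by
    intro a ha b
    show ⁅a, b⁆ ∈ (⊤ : Subgroup Γ).lowerCentralSeries (n + 1)
    rw [Subgroup.lowerCentralSeries_succ]
    exact Subgroup.commutator_mem_commutator ha (Subgroup.mem_top b)
  have hn1 : (gm Γ (n + 1)).Normal := by
    unfold gm
    infer_instance
  have hN : P'.Normal := by
    rw [hP']
    infer_instance
  have hcomm : ∀ a b : (gm Γ n) ⧸ P', a * b = b * a := by
    intro a b
    obtain ⟨a, rfl⟩ := QuotientGroup.mk'_surjective P' a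
    obtain ⟨b, rfl⟩ := QuotientGroup.mk'_surjective P' b
    have h1 : ⁅a, b⁆ ∈ P' := by
      rw [hP', Subgroup.mem_subgroupOf]
      have := hcm a a.2 (b : Γ)
      simpa [commutatorElement_def] using this
    have h2 : QuotientGroup.mk' P' ⁅a, b⁆ = 1 := (QuotientGroup.eq_one_iff _).2 h1
    rw [map_commutatorElement, commutatorElement_eq_one_iff_mul_comm] at h2
    exact h2
  let cg : CommGroup ((gm Γ n) ⧸ P') :=
    { (inferInstance : Group ((gm Γ n) ⧸ P')) with mul_comm := hcomm }
  have hkill : ∀ x : Additive ((gm Γ n) ⧸ P'), q • x = 0 := by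
    intro x
    obtain ⟨a, ha⟩ := QuotientGroup.mk'_surjective P' (Additive.toMul x)
    have : (Additive.toMul x) ^ q = 1 := by
      rw [← ha, ← map_pow]
      have : a ^ q = 1 := Subtype.ext (by simpa using hq a)
      rw [this, map_one]
    exact this
  let md : Module (ZMod q) (Additive ((gm Γ n) ⧸ P')) := AddCommGroup.zmodModule hkill
  refine ⟨Additive ((gm Γ n) ⧸ P'), inferInstance, md, ?_, ?_⟩
  · exact
      { toFun := fun g => Multiplicative.ofAdd (Additive.ofMul (QuotientGroup.mk' P' g))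
        map_one' := by rw [map_one]; rfl
        map_mul' := fun a b => by rw [map_mul]; rfl }
  · intro g
    have h1 : (QuotientGroup.mk' P' g = 1) ↔ g ∈ P' := QuotientGroup.eq_one_iff _
    exact h1.trans Subgroup.mem_subgroupOf

theorem gc_fold_map {Γ Δ X : Type} [Group Γ] [Group Δ] (π : Γ →* Δ) (f : X → Γ) (l : List X)
    (g : Γ) : π (l.foldl (fun g b => ⁅g, f b⁆) g) =
      l.foldl (fun g b => ⁅g, π (f b)⁆) (π g) := by
  induction l generalizing g with
  | nil => rfl
  | cons a l ih =>
    rw [List.foldl_cons, List.foldl_cons, ih, map_commutatorElement]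

theorem gc_map {Γ Δ X : Type} [Group Γ] [Group Δ] (π : Γ →* Δ) (f : X → Γ) (w : List X) :
    π (gc f w) = gc (fun j => π (f j)) w := by
  cases w with
  | nil => exact map_one π
  | cons a l => exact gc_fold_map π f l (f a)

theorem gm_comm {Γ : Type} [Group Γ] {n : ℕ} {a : Γ} (ha : a ∈ gm Γ n) (b : Γ) :
    ⁅a, b⁆ ∈ gm Γ (n + 1) := by
  show ⁅a, b⁆ ∈ (⊤ : Subgroup Γ).lowerCentralSeries (n + 1)
  rw [Subgroup.lowerCentralSeries_succ]
  exact Subgroup.commutator_mem_commutator ha (Subgroup.mem_top b)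

theorem gc_fold_mem {Γ X : Type} [Group Γ] (f : X → Γ) (l : List X) (m : ℕ)
    (g : Γ) (hg : g ∈ gm Γ m) : l.foldl (fun g b => ⁅g, f b⁆) g ∈ gm Γ (m + l.length) := by
  induction l generalizing g m with
  | nil => exact hg
  | cons a l ih =>
    rw [List.foldl_cons, List.length_cons]
    have := ih (m + 1) ⁅g, f a⁆ (gm_comm hg _)
    have e : m + (l.length + 1) = m + 1 + l.length := by omega
    rw [e]
    exact this

theorem gc_mem {Γ X : Type} [Group Γ] (f : X → Γ) (w : List X) (n : ℕ) (hw : w.length = n + 1) :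
    gc f w ∈ gm Γ n := by
  cases w with
  | nil => simp at hw
  | cons a l =>
    have h := gc_fold_mem f l 0 (f a) (Subgroup.mem_top _)
    have e : 0 + l.length = n := by
      rw [List.length_cons] at hw
      omega
    rw [e] at h
    exact h

theorem fil_anti {R S : Type} [CommRing R] [Ring S] [Algebra R S] {c : ℕ} (A : Fil R S c)
    {i j : ℕ} (h : i ≤ j) : A.F j ≤ A.F i := by
  induction j, h using Nat.le_induction with
  | base => exact le_rfl
  | succ j _ ih => exact (A.anti j).trans ih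

/-- units congruent to `1` modulo `F i` -/
def Us {R S : Type} [CommRing R] [Ring S] [Algebra R S] {c : ℕ} (A : Fil R S c)
    (hM : ∀ g : Sˣ, (g : S) - 1 ∈ A.F 1 → ((g⁻¹ : Sˣ) : S) - 1 ∈ A.F 1) (i : ℕ) (hi : 1 ≤ i) :
    Subgroup Sˣ where
  carrier := {g | (g : S) - 1 ∈ A.F i}
  one_mem' := by simp
  mul_mem' := by
    intro g h hg hh
    have e : ((g * h : Sˣ) : S) - 1 = ((g : S) - 1) + ((h : S) - 1) +
        ((g : S) - 1) * ((h : S) - 1) := by
      rw [Units.val_mul]; noncomm_ring
    simp only [Set.mem_ofPred_eq] at hg hh ⊢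
    rw [e]
    exact Submodule.add_mem _ (Submodule.add_mem _ hg hh)
      (fil_anti A (by omega) (A.mul i i _ _ hg hh))
  inv_mem' := by
    intro g hg
    simp only [Set.mem_ofPred_eq] at hg ⊢
    have h1 : ((g⁻¹ : Sˣ) : S) - 1 ∈ A.F 1 := hM g (fil_anti A hi hg)
    have e : ((g⁻¹ : Sˣ) : S) - 1 = -((g : S) - 1) - (((g⁻¹ : Sˣ) : S) - 1) * ((g : S) - 1) := by
      have : ((g⁻¹ : Sˣ) : S) * (g : S) = 1 := g.inv_mul
      have h2 : (((g⁻¹ : Sˣ) : S) - 1) * ((g : S) - 1) =
          ((g⁻¹ : Sˣ) : S) * (g : S) - ((g⁻¹ : Sˣ) : S) - (g : S) + 1 := by noncomm_ring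
      rw [h2, this]; abel
    rw [e]
    exact Submodule.sub_mem _ (Submodule.neg_mem _ hg)
      (fil_anti A (by omega) (A.mul 1 i _ _ h1 hg))

theorem mem_Us {R S : Type} [CommRing R] [Ring S] [Algebra R S] {c : ℕ} (A : Fil R S c)
    (hM : ∀ g : Sˣ, (g : S) - 1 ∈ A.F 1 → ((g⁻¹ : Sˣ) : S) - 1 ∈ A.F 1) (i : ℕ) (hi : 1 ≤ i)
    (g : Sˣ) : g ∈ Us A hM i hi ↔ (g : S) - 1 ∈ A.F i := Iff.rfl

theorem t_COV (hGEN : S_GEN) (hDSW : S_DSW) (hMAG : S_MAG) (hEXQ : S_EXQ) : S_COV := by
  intro p N c hp hcp S _ _ A X x hfree K _ k u hKc hKe hu κ hκ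
  obtain ⟨hx, hD⟩ := hfree
  obtain ⟨mi, mii, miii⟩ := hMAG (ZMod (p ^ N)) S c A X x u hx hu
  set Γ : Subgroup (Sˣ × K) := Subgroup.closure (Set.range fun j => (u j, k j)) with hΓ
  have hin : ∀ j, (u j, k j) ∈ Γ := fun j => Subgroup.subset_closure ⟨j, rfl⟩
  let f : X → Γ := fun j => ⟨(u j, k j), hin j⟩
  have hgen : Subgroup.closure (Set.range f) = ⊤ := by
    have h := Subgroup.closure_closure_coe_preimage (k := Set.range fun j => (u j, k j))
    rw [← h]
    congr 1
    ext g
    constructor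
    · rintro ⟨j, rfl⟩
      exact ⟨j, rfl⟩
    · rintro ⟨j, hj⟩
      exact ⟨j, Subtype.ext hj⟩
  let π1 : Γ →* Sˣ := (MonoidHom.fst Sˣ K).comp Γ.subtype
  let π2 : Γ →* K := (MonoidHom.snd Sˣ K).comp Γ.subtype
  have hf1 : ∀ j, π1 (f j) = u j := fun j => rfl
  -- first coordinates
  have first : ∀ n : ℕ, ∀ g ∈ gm Γ n, π1 g ∈ Us A mi (n + 1) (by omega) := by
    intro n
    induction n with
    | zero =>
      intro g _
      have hg : g ∈ Subgroup.closure (Set.range f) := by rw [hgen]; trivial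
      have hle : Subgroup.closure (Set.range f) ≤ (Us A mi (0 + 1) (by omega)).comap π1 := by
        rw [Subgroup.closure_le]
        rintro _ ⟨j, rfl⟩
        rw [SetLike.mem_coe, Subgroup.mem_comap, mem_Us, hf1, hu, add_sub_cancel_left]
        exact hx j
      exact hle hg
    | succ n ih =>
      intro g hg
      have hle : gm Γ (n + 1) ≤ (Us A mi (n + 1 + 1) (by omega)).comap π1 := by
        show (⊤ : Subgroup Γ).lowerCentralSeries (n + 1) ≤ _
        rw [Subgroup.lowerCentralSeries_succ, Subgroup.commutator_le]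
        intro a ha b _
        rw [Subgroup.mem_comap, mem_Us, map_commutatorElement]
        refine mii (n + 1) (by omega) _ _ (ih a ha) ?_
        have h0 : ∀ g : Γ, (π1 g : S) - 1 ∈ A.F 1 := by
          intro g
          have hg : g ∈ Subgroup.closure (Set.range f) := by rw [hgen]; trivial
          have hle : Subgroup.closure (Set.range f) ≤ (Us A mi 1 le_rfl).comap π1 := by
            rw [Subgroup.closure_le]
            rintro _ ⟨j, rfl⟩
            rw [SetLike.mem_coe, Subgroup.mem_comap, mem_Us, hf1, hu, add_sub_cancel_left]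
            exact hx j
          exact hle hg
        exact h0 b
      exact hle hg
  -- exponent
  have hexp : ∀ g : Γ, g ^ (p ^ N) = 1 := by
    intro g
    have h1 := hEXQ p N c hp hcp S A ((π1 g : S) - 1) (first 0 g (Subgroup.mem_top g))
    rw [add_sub_cancel] at h1
    apply Subtype.ext
    apply Prod.ext
    · apply Units.ext
      rw [← Units.val_pow_eq_pow_val] at h1
      exact h1
    · exact hKe _
  -- the claim
  have claim : ∀ n : ℕ, n ≤ c → (⟨((1 : Sˣ), κ), hκ⟩ : Γ) ∈ gm Γ n := by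
    intro n
    induction n with
    | zero => intro _; exact Subgroup.mem_top _
    | succ n ih =>
      intro hn
      have hz := ih (by omega)
      obtain ⟨M, _, _, μ, hμ⟩ := quot (p ^ N) Γ hexp n
      classical
      let φ : List X → M := fun w => if h : gc f w ∈ gm Γ n then
        Multiplicative.toAdd (μ ⟨gc f w, h⟩) else 0
      have hφ : ∀ w : List X, ∀ h : gc f w ∈ gm Γ n,
          φ w = Multiplicative.toAdd (μ ⟨gc f w, h⟩) := by
        intro w h
        exact dif_pos h
      obtain ⟨D, hD1, hD2⟩ := hD (n + 1) hn M φ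
      have hdsw := hDSW Γ X f n M μ (fun g hg => (hμ g).2 hg) S x D.toAddMonoidHom φ
        (fun w hw => hD1 w hw) (fun w _ h => hφ w h)
      -- main identity
      have main : gm Γ n ≤
          { carrier := {g : Γ | ∃ h : g ∈ gm Γ n,
              D ((π1 g : S) - 1) = (n + 1) • Multiplicative.toAdd (μ ⟨g, h⟩)}
            one_mem' := by
              refine ⟨Subgroup.one_mem _, ?_⟩
              have e : (⟨1, Subgroup.one_mem _⟩ : gm Γ n) = 1 := rfl
              rw [e, map_one, map_one]
              simp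
            mul_mem' := by
              rintro g h ⟨hg, hg'⟩ ⟨hh, hh'⟩
              refine ⟨Subgroup.mul_mem _ hg hh, ?_⟩
              have e : (⟨g * h, Subgroup.mul_mem _ hg hh⟩ : gm Γ n) = ⟨g, hg⟩ * ⟨h, hh⟩ := rfl
              have e2 : (π1 (g * h) : S) - 1 = ((π1 g : S) - 1) + ((π1 h : S) - 1) +
                  ((π1 g : S) - 1) * ((π1 h : S) - 1) := by
                rw [map_mul, Units.val_mul]; noncomm_ring
              have e3 : D (((π1 g : S) - 1) * ((π1 h : S) - 1)) = 0 :=
                hD2 _ (fil_anti A (by omega)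
                  (A.mul (n + 1) (n + 1) _ _ (first n g hg) (first n h hh)))
              rw [e, e2, map_add, map_add, e3, hg', hh', map_mul, toAdd_mul, smul_add, add_zero]
            inv_mem' := by
              rintro g ⟨hg, hg'⟩
              refine ⟨Subgroup.inv_mem _ hg, ?_⟩
              have e : (⟨g⁻¹, Subgroup.inv_mem _ hg⟩ : gm Γ n) = (⟨g, hg⟩ : gm Γ n)⁻¹ := rfl
              have h1 := first n _ (Subgroup.inv_mem _ hg)
              rw [map_inv, mem_Us] at h1
              have e2 : (π1 g⁻¹ : S) - 1 = -((π1 g : S) - 1) -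
                  (((π1 g)⁻¹ : Sˣ) - 1 : S) * ((π1 g : S) - 1) := by
                have h3 : (((π1 g)⁻¹ : Sˣ) : S) * (π1 g : S) = 1 := (π1 g).inv_mul
                have h2 : ((((π1 g)⁻¹ : Sˣ) : S) - 1) * ((π1 g : S) - 1) =
                    (((π1 g)⁻¹ : Sˣ) : S) * (π1 g : S) - (((π1 g)⁻¹ : Sˣ) : S) - (π1 g : S) + 1 := by
                  noncomm_ring
                rw [h2, h3, map_inv]; abel
              have e3 : D ((((π1 g)⁻¹ : Sˣ) - 1 : S) * ((π1 g : S) - 1)) = 0 :=
                hD2 _ (fil_anti A (by omega)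
                  (A.mul (n + 1) (n + 1) _ _ h1 (first n g hg)))
              rw [e, e2, map_sub, map_neg, e3, hg', map_inv, toAdd_inv, smul_neg, sub_zero] :
              Subgroup Γ } := by
        refine (hGEN Γ X f hgen n).trans (sup_le ?_ ?_)
        · rw [Subgroup.closure_le]
          rintro g ⟨w, hw, rfl⟩
          have hm : gc f w ∈ gm Γ n := gc_mem f w n hw
          refine ⟨hm, ?_⟩
          have h1 := miii w (by rintro rfl; simp at hw)
          have h2 : π1 (gc f w) = gc u w := gc_map π1 f w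
          rw [hw] at h1
          have h3 := hD2 _ h1
          rw [map_sub, sub_eq_zero] at h3
          rw [h2, h3]
          have h4 := hdsw w hw
          rw [hφ w hm] at h4
          exact h4
        · intro g hg
          have hgn : g ∈ gm Γ n := Subgroup.lowerCentralSeries_antitone _ (Nat.le_succ n) hg
          refine ⟨hgn, ?_⟩
          have h1 := hD2 _ (first (n + 1) g hg)
          rw [h1, (hμ ⟨g, hgn⟩).2 hg, toAdd_one, smul_zero]
      obtain ⟨hz', hz2⟩ := main hz
      have h0 : π1 (⟨((1 : Sˣ), κ), hκ⟩ : Γ) = 1 := rfl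
      rw [h0, Units.val_one, sub_self, map_zero] at hz2
      have hun := A.inv (n + 1) (by omega) hn
      have hz3 : Multiplicative.toAdd (μ ⟨(⟨((1 : Sˣ), κ), hκ⟩ : Γ), hz'⟩) = 0 := by
        obtain ⟨v, hv⟩ := hun
        have h5 : ((n + 1 : ℕ) : ZMod (p ^ N)) •
            Multiplicative.toAdd (μ ⟨(⟨((1 : Sˣ), κ), hκ⟩ : Γ), hz'⟩) = 0 := by
          rw [Nat.cast_smul_eq_nsmul]
          exact hz2.symm
        rw [← hv] at h5
        have h6 := congrArg (fun y => ((v⁻¹ : (ZMod (p ^ N))ˣ) : ZMod (p ^ N)) • y) h5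
        simp only [smul_zero, smul_smul, Units.inv_mul, one_smul] at h6
        exact h6
      exact (hμ ⟨_, hz'⟩).1 (Multiplicative.toAdd.injective hz3)
  have hc := claim c le_rfl
  have h2 : (gm Γ c).map π2 ≤ gm K c := by
    unfold gm
    rw [Subgroup.map_lowerCentralSeries]
    have hmono : ∀ n, ∀ T : Subgroup K, T.lowerCentralSeries n ≤
        (⊤ : Subgroup K).lowerCentralSeries n := by
      intro n T
      induction n with
      | zero => exact le_top
      | succ n ih =>
        rw [Subgroup.lowerCentralSeries_succ, Subgroup.lowerCentralSeries_succ]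
        exact Subgroup.commutator_mono ih le_top
    exact hmono _ _
  have h3 : κ ∈ gm K c := h2 ⟨_, hc, rfl⟩
  rw [hKc, Subgroup.mem_bot] at h3
  exact h3

end H41.LZ
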